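import Mathlib
import Pool.Agent.Q273.MV.Stm2
import Pool.Agent.Q6.MV.Pig

/-!
# Job PIG2: pigeonhole with a large box
-/

set_option autoImplicit false

open NumberField NumberField.mixedEmbedding Finset Pool.Agent.Q6.MV

namespace Pool.Agent.Q121.MV

theorem pig2 : Q273.MV.S_PIG2 := by
  classical
  intro K _ _ n ξ
  have hS : ∀ w : InfinitePlace K, Sw w ≤ ∑ v : InfinitePlace K, Sw v := fun w =>
    Finset.single_le_sum (f := fun v : InfinitePlace K => Sw v) (fun v _ => Sw_nonneg v)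
      (Finset.mem_univ w)
  have hS0 : 0 ≤ ∑ v : InfinitePlace K, Sw v := Finset.sum_nonneg fun v _ => Sw_nonneg v
  refine ⟨1 + 2 * ∑ v : InfinitePlace K, Sw v, by linarith, ?_⟩
  intro A _ _ φ N L hL hcard
  have hL0 : (1 : ℝ) ≤ L := by exact_mod_cast hL
  have : Fintype A := Fintype.ofFinite A
  -- the elements
  let β : (BI K → Fin (N + 1)) → 𝓞 K := fun c => comb fun i => ((c i : ℕ) : ℤ)
  let γ : (BI K → Fin (L + 1)) → 𝓞 K := fun c => comb fun i => ((c i : ℕ) : ℤ)
  let u : (BI K → Fin (N + 1)) → Fin n → mixedSpace K :=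
    fun c j => mixedEmbedding K ((β c : 𝓞 K) : K) * ξ j
  let vec : (BI K → Fin (N + 1)) × (Fin n → BI K → Fin (L + 1)) → Fin (n + 1) → 𝓞 K :=
    fun q => Fin.cons (β q.1) fun j => ip (u q.1 j) + γ (q.2 j)
  let F : (BI K → Fin (N + 1)) × (Fin n → BI K → Fin (L + 1)) → A := fun q => φ (vec q)
  obtain ⟨q, q', hne, hF⟩ := Fintype.exists_ne_map_eq_of_card_lt F (by
    rw [Fintype.card_prod, Fintype.card_fun, Fintype.card_fun, Fintype.card_fun,
      Fintype.card_fin, Fintype.card_fin, Fintype.card_fin, card_BI, ← pow_mul,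
      ← Nat.card_eq_fintype_card]
    exact hcard)
  obtain ⟨c, e⟩ := q
  obtain ⟨c', e'⟩ := q'
  have hF2 : φ (vec (c, e)) = φ (vec (c', e')) := hF
  refine ⟨vec (c, e) - vec (c', e'), ?_, ?_, ?_, ?_⟩
  · intro h0
    apply hne
    have h00 : ∀ j, (vec (c, e)) j = (vec (c', e')) j := fun j => sub_eq_zero.1 (congrFun h0 j)
    have h1 : β c = β c' := h00 0
    have h2 := comb_inj h1
    have hc : c = c' := by
      funext i
      have h3 := congrFun h2 i
      apply Fin.ext
      exact_mod_cast h3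
    subst hc
    have he : e = e' := by
      funext j i
      have h3 : ip (u c j) + γ (e j) = ip (u c j) + γ (e' j) := h00 j.succ
      have h4 : γ (e j) = γ (e' j) := add_left_cancel h3
      have h5 := congrFun (comb_inj h4) i
      apply Fin.ext
      exact_mod_cast h5
    rw [he]
  · rw [map_sub, hF2, sub_self]
  · intro w
    have h1 : (vec (c, e) - vec (c', e')) 0 =
        comb ((fun i => ((c i : ℕ) : ℤ)) - fun i => ((c' i : ℕ) : ℤ)) := by
      change β c - β c' = _
      exact comb_sub _ _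
    rw [h1]
    refine (comb_size w _ (N : ℝ) ?_).trans ?_
    · intro i
      rw [Pi.sub_apply]
      have h2 : ((c i : ℕ) : ℝ) ≤ N := by exact_mod_cast Nat.lt_succ_iff.1 (c i).2
      have h3 : ((c' i : ℕ) : ℝ) ≤ N := by exact_mod_cast Nat.lt_succ_iff.1 (c' i).2
      have h4 : (0 : ℝ) ≤ ((c i : ℕ) : ℝ) := Nat.cast_nonneg _
      have h5 : (0 : ℝ) ≤ ((c' i : ℕ) : ℝ) := Nat.cast_nonneg _
      push_cast
      rw [abs_le]
      constructor <;> linarith
    · rw [mul_comm]
      refine mul_le_mul_of_nonneg_right ?_ (Nat.cast_nonneg _)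
      have := hS w
      linarith
  · intro w j
    have h1 : mixedEmbedding K (((vec (c, e) - vec (c', e')) 0 : 𝓞 K) : K) * ξ j -
        mixedEmbedding K (((vec (c, e) - vec (c', e')) j.succ : 𝓞 K) : K) =
        ((u c j - mixedEmbedding K ((ip (u c j) : 𝓞 K) : K)) -
        (u c' j - mixedEmbedding K ((ip (u c' j) : 𝓞 K) : K))) +
        mixedEmbedding K ((γ (e' j) - γ (e j) : 𝓞 K) : K) := by
      have e1 : (((vec (c, e) - vec (c', e')) 0 : 𝓞 K) : K) = ((β c : 𝓞 K) : K) - ((β c' : 𝓞 K) : K) := by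
        change ((β c - β c' : 𝓞 K) : K) = _
        exact map_sub (algebraMap (𝓞 K) K) _ _
      have e2 : (((vec (c, e) - vec (c', e')) j.succ : 𝓞 K) : K) =
          (((ip (u c j) : 𝓞 K) : K) + ((γ (e j) : 𝓞 K) : K)) -
          (((ip (u c' j) : 𝓞 K) : K) + ((γ (e' j) : 𝓞 K) : K)) := by
        change (((ip (u c j) + γ (e j)) - (ip (u c' j) + γ (e' j)) : 𝓞 K) : K) = _
        have cs : ∀ a b : 𝓞 K, ((a - b : 𝓞 K) : K) = (a : K) - (b : K) :=
          fun a b => map_sub (algebraMap (𝓞 K) K) a b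
        have ca : ∀ a b : 𝓞 K, ((a + b : 𝓞 K) : K) = (a : K) + (b : K) :=
          fun a b => map_add (algebraMap (𝓞 K) K) a b
        rw [cs, ca, ca]
      have e3 : ((γ (e' j) - γ (e j) : 𝓞 K) : K) = ((γ (e' j) : 𝓞 K) : K) - ((γ (e j) : 𝓞 K) : K) :=
        map_sub (algebraMap (𝓞 K) K) _ _
      rw [e1, e2, e3, map_sub, map_sub, map_add, map_add, map_sub, sub_mul]
      change mixedEmbedding K ((β c : 𝓞 K) : K) * ξ j - mixedEmbedding K ((β c' : 𝓞 K) : K) * ξ j -
        _ = (mixedEmbedding K ((β c : 𝓞 K) : K) * ξ j - _) -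
          (mixedEmbedding K ((β c' : 𝓞 K) : K) * ξ j - _) + _
      ring
    rw [h1]
    have h2 : normAtPlace w ((u c j - mixedEmbedding K ((ip (u c j) : 𝓞 K) : K)) -
        (u c' j - mixedEmbedding K ((ip (u c' j) : 𝓞 K) : K))) ≤ 1 * Sw w := by
      refine size_small w _ 1 ?_
      intro i
      rw [map_sub, Finsupp.sub_apply, repr_sub_ip, repr_sub_ip]
      have a1 := Int.fract_lt_one ((latticeBasis K).repr (u c j) i)
      have a2 := Int.fract_nonneg ((latticeBasis K).repr (u c j) i)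
      have a3 := Int.fract_lt_one ((latticeBasis K).repr (u c' j) i)
      have a4 := Int.fract_nonneg ((latticeBasis K).repr (u c' j) i)
      rw [abs_le]
      constructor <;> linarith
    have h3 : normAtPlace w (mixedEmbedding K ((γ (e' j) - γ (e j) : 𝓞 K) : K)) ≤ L * Sw w := by
      rw [normAtPlace_apply]
      have e3 : γ (e' j) - γ (e j) = comb ((fun i => ((e' j i : ℕ) : ℤ)) - fun i => ((e j i : ℕ) : ℤ)) :=
        comb_sub _ _
      rw [e3]
      refine comb_size w _ (L : ℝ) ?_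
      intro i
      rw [Pi.sub_apply]
      have h2 : ((e j i : ℕ) : ℝ) ≤ L := by exact_mod_cast Nat.lt_succ_iff.1 (e j i).2
      have h3 : ((e' j i : ℕ) : ℝ) ≤ L := by exact_mod_cast Nat.lt_succ_iff.1 (e' j i).2
      have h4 : (0 : ℝ) ≤ ((e j i : ℕ) : ℝ) := Nat.cast_nonneg _
      have h5 : (0 : ℝ) ≤ ((e' j i : ℕ) : ℝ) := Nat.cast_nonneg _
      push_cast
      rw [abs_le]
      constructor <;> linarith
    refine (normAtPlace_add_le w _ _).trans ((add_le_add h2 h3).trans ?_)
    have h4 := hS w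
    have h5 := Sw_nonneg w
    nlinarith

end Pool.Agent.Q121.MV
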